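import Pool.Agent.K3G.Main5

/-! Almost disjoint triangles in space: the trivial upper bound `n (n - 1) / 6` is sharp up to
the linear term `(n - 1) / 3`, for every `n` (MP_a19305_co). -/

set_option autoImplicit false

namespace Pool.Agent.Results.MP_a19305_co.Asymptotic

open Pool.Agent.H42K Filter Topology

/-- `T n` is the maximum of the set of sizes of almost disjoint families of triangles spanned by
`n` points of space. For every `n ≥ 1` it lies between `(n - 1) (n - 2) / 6` and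
`n (n - 1) / 6`. So `T n / n ^ 2` tends to `1 / 6`, and for every `c < 1 / 6` it is at least
`c n ^ 2` for all large `n`. -/
theorem result :
    (∀ n : ℕ, IsGreatest (sizes n) (T n)) ∧
    (∀ n : ℕ, 1 ≤ n → ((n : ℝ) - 1) * ((n : ℝ) - 2) / 6 ≤ (T n : ℝ) ∧
      (T n : ℝ) ≤ (n : ℝ) * ((n : ℝ) - 1) / 6) ∧
    Tendsto (fun n : ℕ => (T n : ℝ) / (n : ℝ) ^ 2) atTop (𝓝 (1 / 6)) ∧
    ∀ c : ℝ, c < 1 / 6 → ∃ n₀ : ℕ, ∀ n : ℕ, n₀ ≤ n → c * (n : ℝ) ^ 2 ≤ (T n : ℝ) := by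
  refine ⟨Pool.Agent.HCYC.T_isGreatest, fun n hn => ⟨Pool.Agent.K3G.T_uni_real n hn,
    Pool.Agent.HCYC.T_upper_real n⟩, Pool.Agent.K3G.T_lim, fun c hc => ?_⟩
  obtain ⟨n₁, hn₁⟩ := eventually_atTop.1 (Pool.Agent.K3G.T_lim.eventually (lt_mem_nhds hc))
  refine ⟨max n₁ 1, fun n hn => ?_⟩
  have h6 := hn₁ n (le_trans (le_max_left _ _) hn)
  have h7 : (0 : ℝ) < n := by
    have : 1 ≤ n := le_trans (le_max_right _ _) hn
    exact_mod_cast this
  have h8 : (0 : ℝ) < (n : ℝ) ^ 2 := by positivity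
  exact ((lt_div_iff₀ h8).1 h6).le

end Pool.Agent.Results.MP_a19305_co.Asymptotic
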